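import Pool.Agent.H65.PK.Targets

/-!
Row SQZ: the product of the two pencils.
-/

set_option autoImplicit false

open Polynomial Module

namespace Pool.Agent.H61.PKER

open Pool.Agent.H65.PK

lemma sqz_rel {J R : Type} [Fintype J] [AddCommGroup R] [Module ℚ R]
    (x : J → Module.End ℚ R) (V U : Submodule ℚ R) (bl : J → J → ℚ)
    (hx : ∀ e f, x e * x f + x f * x e = bl e f • (1 : Module.End ℚ R))
    (d : ℕ) (bV : Basis (Fin d) ℚ V) (bU : Basis (Fin d) ℚ U) (A B : J → Matrix (Fin d) (Fin d) ℚ)
    (hA : ∀ e i, x e (bV i : R) = ∑ j, A e i j • (bU j : R))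
    (hB : ∀ e i, x e (bU i : R) = ∑ j, B e i j • (bV j : R)) (e f : J) :
    A e * B f + A f * B e = bl e f • (1 : Matrix (Fin d) (Fin d) ℚ) := by
  have h1 : ∀ e f i, x f (x e (bV i : R)) = ∑ k, (A e * B f) i k • (bV k : R) := by
    intro e f i
    rw [hA, map_sum]
    calc ∑ j, x f (A e i j • (bU j : R)) = ∑ j, ∑ k, (A e i j * B f j k) • (bV k : R) := by
          refine Finset.sum_congr rfl (fun j _ => ?_)
          rw [map_smul, hB, Finset.smul_sum]
          refine Finset.sum_congr rfl (fun k _ => ?_)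
          rw [smul_smul]
      _ = ∑ k, (A e * B f) i k • (bV k : R) := by
          rw [Finset.sum_comm]
          refine Finset.sum_congr rfl (fun k _ => ?_)
          rw [Matrix.mul_apply, Finset.sum_smul]
  have hli : LinearIndependent ℚ (fun k => (bV k : R)) :=
    bV.linearIndependent.map' V.subtype (Submodule.ker_subtype V)
  ext i k
  have h2 : ∑ k, ((A e * B f + A f * B e) i k - (bl e f • (1 : Matrix (Fin d) (Fin d) ℚ)) i k) •
      (bV k : R) = 0 := by
    have h3 := congrArg (fun (T : Module.End ℚ R) => T (bV i : R)) (hx f e)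
    have h4 := congrArg (fun (T : Module.End ℚ R) => T (bV i : R)) (hx e f)
    simp only [LinearMap.add_apply, Module.End.mul_apply, LinearMap.smul_apply,
      Module.End.one_apply] at h3 h4
    rw [h1, h1] at h4
    simp only [sub_smul, Finset.sum_sub_distrib, Matrix.add_apply, add_smul,
      Finset.sum_add_distrib]
    rw [add_comm (∑ k, (A e * B f) i k • (bV k : R)), h4]
    simp [Matrix.one_apply, smul_smul]
  have h5 := (Fintype.linearIndependent_iff.1 hli) _ h2 k
  linarith

theorem pf_SQZ : T_SQZ := by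
  intro J R _ _ _ _ x V U bl hx d bV bU A B hA hB z hz
  have h := sqz_rel x V U bl hx d bV bU A B hA hB
  set φ : Matrix (Fin d) (Fin d) ℚ →+* Matrix (Fin d) (Fin d) ℂ := (algebraMap ℚ ℂ).mapMatrix
    with hφ
  have hφa : ∀ M : Matrix (Fin d) (Fin d) ℚ, M.map (algebraMap ℚ ℂ) = φ M := fun M => rfl
  have h1 : (∑ e, z e • (A e).map (algebraMap ℚ ℂ)) * (∑ e, z e • (B e).map (algebraMap ℚ ℂ)) =
      ∑ e, ∑ f, (z e * z f) • (φ (A e) * φ (B f)) := by
    rw [Finset.sum_mul_sum]
    refine Finset.sum_congr rfl (fun e _ => Finset.sum_congr rfl (fun f _ => ?_))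
    rw [hφa, hφa, smul_mul_smul_comm]
  rw [h1]
  set P := ∑ e, ∑ f, (z e * z f) • (φ (A e) * φ (B f)) with hP
  have h2 : P = ∑ e, ∑ f, (z e * z f) • (φ (A f) * φ (B e)) := by
    rw [hP, Finset.sum_comm]
    refine Finset.sum_congr rfl (fun e _ => Finset.sum_congr rfl (fun f _ => ?_))
    rw [mul_comm (z f) (z e)]
  have h3 : P + P = 0 := by
    calc P + P = ∑ e, ∑ f, (z e * z f) • (φ (A e) * φ (B f)) +
          ∑ e, ∑ f, (z e * z f) • (φ (A f) * φ (B e)) := by rw [← h2]
      _ = ∑ e, ∑ f, (z e * z f) • φ (A e * B f + A f * B e) := by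
          rw [← Finset.sum_add_distrib]
          refine Finset.sum_congr rfl (fun e _ => ?_)
          rw [← Finset.sum_add_distrib]
          refine Finset.sum_congr rfl (fun f _ => ?_)
          rw [map_add, map_mul, map_mul, smul_add]
      _ = ∑ e, ∑ f, (z e * z f * ((bl e f : ℚ) : ℂ)) • (1 : Matrix (Fin d) (Fin d) ℂ) := by
          refine Finset.sum_congr rfl (fun e _ => Finset.sum_congr rfl (fun f _ => ?_))
          rw [h e f]
          have h4 : φ (bl e f • (1 : Matrix (Fin d) (Fin d) ℚ)) =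
              ((bl e f : ℚ) : ℂ) • (1 : Matrix (Fin d) (Fin d) ℂ) := by
            ext i j
            rw [← hφa, Matrix.map_apply, Matrix.smul_apply, Matrix.smul_apply, Matrix.one_apply,
              Matrix.one_apply]
            split_ifs <;> simp
          rw [h4, smul_smul]
      _ = (∑ e, ∑ f, z e * z f * ((bl e f : ℚ) : ℂ)) • (1 : Matrix (Fin d) (Fin d) ℂ) := by
          rw [Finset.sum_smul]
          refine Finset.sum_congr rfl (fun e _ => ?_)
          rw [Finset.sum_smul]
      _ = 0 := by rw [hz, zero_smul]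
  have h5 : (2 : ℂ) • P = 0 := by rw [two_smul, h3]
  exact (smul_eq_zero.1 h5).resolve_left two_ne_zero

end Pool.Agent.H61.PKER
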